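import Pool.Agent.Lib_helper48.T4.Asm
import Pool.Agent.Lib_helper54.T4.Part1

/-! Type IV: the final forms. -/

set_option autoImplicit false
set_option linter.unusedSectionVars false
set_option linter.unusedSimpArgs false

namespace Pool.Agent.T4W

open Finset Equiv Module Pool.Agent.OT Pool.Agent.MFT Pool.Agent.T4

variable {K : Type*} [Field K] [CharZero K]
variable {κ : Type*} [Fintype κ]
variable (U : κ → Type*) [∀ j, AddCommGroup (U j)] [∀ j, Module K (U j)]
  [∀ j, FiniteDimensional K (U j)]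
variable {g : Type*} [LieRing g] [LieAlgebra K g]
  [∀ j, LieRingModule g (U j)] [∀ j, LieModule K g (U j)]

/-- The vector of the traces of y. -/
noncomputable def trv (K : Type*) [Field K] {κ : Type*} {g : Type*} [LieRing g] [LieAlgebra K g]
    (U : κ → Type*) [∀ j, AddCommGroup (U j)] [∀ j, Module K (U j)]
    [∀ j, LieRingModule g (U j)] [∀ j, LieModule K g (U j)] : g →ₗ[K] (κ → K) where
  toFun y j := LinearMap.trace K (U j) (LieModule.toEnd K g (U j) y)
  map_add' x y := by funext j; simp
  map_smul' c x := by funext j; simp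

theorem trv_lie (x y : g) : trv K U ⁅x, y⁆ = 0 := by
  funext j
  show LinearMap.trace K (U j) (LieModule.toEnd K g (U j) ⁅x, y⁆) = 0
  have h : LieModule.toEnd K g (U j) ⁅x, y⁆ = LieModule.toEnd K g (U j) x *
      LieModule.toEnd K g (U j) y - LieModule.toEnd K g (U j) y * LieModule.toEnd K g (U j) x := by
    refine LinearMap.ext fun u => ?_
    exact lie_lie x y u
  rw [h, map_sub, LinearMap.trace_mul_comm, sub_self]

/-- The image is determined by the traces. -/
theorem image (P : Set g) (HT : ∀ I : LieIdeal K g, (∀ h ∈ P, h ∈ I) → I = ⊤)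
    (hsl : ∀ z : ∀ j, Module.End K (U j), (∀ j, LinearMap.trace K (U j) (z j) = 0) →
      ∃ y : g, ∀ j (u : U j), ⁅y, u⁆ = z j u) (z : ∀ j, Module.End K (U j)) :
    (∃ y : g, ∀ j (u : U j), ⁅y, u⁆ = z j u) ↔
      (fun j => LinearMap.trace K (U j) (z j)) ∈ Submodule.span K {t : κ → K | ∃ h ∈ P,
        t = fun j => LinearMap.trace K (U j) (LieModule.toEnd K g (U j) h)} := by
  constructor
  · rintro ⟨y, hy⟩
    let I : LieIdeal K g :=
      { (Submodule.span K {t : κ → K | ∃ h ∈ P,
          t = fun j => LinearMap.trace K (U j) (LieModule.toEnd K g (U j) h)}).comap (trv K U) with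
        lie_mem := by
          intro x m _
          show trv K U ⁅x, m⁆ ∈ Submodule.span K {t : κ → K | ∃ h ∈ P,
            t = fun j => LinearMap.trace K (U j) (LieModule.toEnd K g (U j) h)}
          rw [trv_lie]
          exact Submodule.zero_mem _ }
    have hI := HT I (fun h hh => by
      show trv K U h ∈ Submodule.span K {t : κ → K | ∃ h ∈ P,
        t = fun j => LinearMap.trace K (U j) (LieModule.toEnd K g (U j) h)}
      exact Submodule.subset_span ⟨h, hh, rfl⟩)
    have hyI : y ∈ I := by rw [hI]; exact LieSubmodule.mem_top y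
    have hyI' : trv K U y ∈ Submodule.span K {t : κ → K | ∃ h ∈ P,
        t = fun j => LinearMap.trace K (U j) (LieModule.toEnd K g (U j) h)} := hyI
    have h1 : (fun j => LinearMap.trace K (U j) (z j)) = trv K U y := by
      funext j
      show _ = LinearMap.trace K (U j) (LieModule.toEnd K g (U j) y)
      congr 1
      exact LinearMap.ext fun u => (hy j u).symm
    rw [h1]
    exact hyI'
  · intro hz
    have h1 : Submodule.span K {t : κ → K | ∃ h ∈ P,
        t = fun j => LinearMap.trace K (U j) (LieModule.toEnd K g (U j) h)} ≤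
        LinearMap.range (trv K U (g := g)) := by
      rw [Submodule.span_le]
      rintro t ⟨h, -, rfl⟩
      exact ⟨h, rfl⟩
    obtain ⟨y0, hy0⟩ := h1 hz
    obtain ⟨y1, hy1⟩ := hsl (fun j => z j - LieModule.toEnd K g (U j) y0) (fun j => by
      rw [map_sub, sub_eq_zero]
      exact (congrFun hy0 j).symm)
    refine ⟨y0 + y1, fun j u => ?_⟩
    rw [add_lie, hy1]
    show ⁅y0, u⁆ + (z j u - ⁅y0, u⁆) = z j u
    abel

/-- The action on the n-th power of the sum of the U j and their duals. -/
def act0 {n : ℕ} (y : g) (v : Fin n → ∀ j, U j × Module.Dual K (U j)) :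
    Fin n → ∀ j, U j × Module.Dual K (U j) :=
  fun t j => (⁅y, (v t j).1⁆, -((v t j).2 ∘ₗ LieModule.toEnd K g (U j) y))

theorem forms' [DecidableEq κ] (W : Empty → Type) [∀ i, AddCommGroup (W i)] [∀ i, Module K (W i)]
    [∀ i, FiniteDimensional K (W i)] [∀ i, LieRingModule g (W i)] [∀ i, LieModule K g (W i)]
    (hU : ∀ j, 0 < finrank K (U j))
    (hsl : ∀ z : ∀ j, Module.End K (U j), (∀ j, LinearMap.trace K (U j) (z j) = 0) →
      ∃ y : g, ∀ j (u : U j), ⁅y, u⁆ = z j u)
    (n m : ℕ) (f : (Fin n → ∀ j, U j × Module.Dual K (U j)) [⋀^Fin m]→ₗ[K] K)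
    (hf : Inv (act0 U (g := g)) (fun v => f v)) :
    (fun v => f v) ∈ Submodule.span K (TG (act0 U (g := g) (n := n)) K U m) := by
  let ω : ∀ i : Empty, LinearMap.BilinForm K (W i) := fun i => i.elim
  let P : Fin n → (Fin n → ∀ j, U j × Module.Dual K (U j)) →ₗ[K] MSp K W U := fun a =>
    { toFun := fun v => (fun i => i.elim, v a)
      map_add' := fun v w => Prod.ext (funext fun i => i.elim) rfl
      map_smul' := fun c v => Prod.ext (funext fun i => i.elim) rfl }
  let I : Fin n → MSp K W U →ₗ[K] (Fin n → ∀ j, U j × Module.Dual K (U j)) := fun a =>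
    LinearMap.single K (fun _ : Fin n => ∀ j, U j × Module.Dual K (U j)) a ∘ₗ
      LinearMap.snd K (∀ i, W i) (∀ j, U j × Module.Dual K (U j))
  have hIa : ∀ a x, I a x = Pi.single a x.2 := fun _ _ => rfl
  refine assembly (ω := ω) hU (fun i => i.elim) (fun i => i.elim) ?_ (fun i => i.elim)
    (act0 U) P I ?_ ?_ ?_ f hf
  · intro x z _ hz
    obtain ⟨y, hy⟩ := hsl z hz
    exact ⟨y, fun i => i.elim, hy⟩
  · intro v
    show ∑ a, Pi.single a (v a) = v
    exact Finset.univ_sum_single v
  · intro t y v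
    refine msp_ext ?_ ?_ ?_
    · intro i; exact i.elim
    · intro j; rfl
    · intro j; rfl
  · intro t y x
    rw [hIa, hIa]
    funext a
    by_cases h : a = t
    · subst h
      rw [Pi.single_eq_same]
      show (fun j => (⁅y, ((Pi.single a x.2 : Fin n → ∀ j, U j × Module.Dual K (U j)) a j).1⁆,
        -(((Pi.single a x.2 : Fin n → ∀ j, U j × Module.Dual K (U j)) a j).2 ∘ₗ
          LieModule.toEnd K g (U j) y))) = _
      rw [Pi.single_eq_same]
      rfl
    · rw [Pi.single_eq_of_ne h]
      show (fun j => (⁅y, ((Pi.single t x.2 : Fin n → ∀ j, U j × Module.Dual K (U j)) a j).1⁆,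
        -(((Pi.single t x.2 : Fin n → ∀ j, U j × Module.Dual K (U j)) a j).2 ∘ₗ
          LieModule.toEnd K g (U j) y))) = _
      rw [Pi.single_eq_of_ne h]
      funext j
      show (⁅y, (0 : U j)⁆, -((0 : Module.Dual K (U j)) ∘ₗ LieModule.toEnd K g (U j) y)) = 0
      rw [lie_zero, LinearMap.zero_comp, neg_zero]
      rfl

theorem forms [DecidableEq κ] (hU : ∀ j, 0 < finrank K (U j))
    (hsl : ∀ z : ∀ j, Module.End K (U j), (∀ j, LinearMap.trace K (U j) (z j) = 0) →
      ∃ y : g, ∀ j (u : U j), ⁅y, u⁆ = z j u)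
    (n m : ℕ) (f : (Fin n → ∀ j, U j × Module.Dual K (U j)) [⋀^Fin m]→ₗ[K] K)
    (hf : Inv (act0 U (g := g)) (fun v => f v)) :
    (fun v => f v) ∈ Submodule.span K (TG (act0 U (g := g) (n := n)) K U m) := by
  refine @forms' K _ _ κ _ U _ _ _ g _ _ _ _ _ (fun _ => PUnit) (fun i => i.elim)
    (fun i => i.elim) (fun i => i.elim) (fun i => i.elim) (fun i => i.elim) hU hsl n m f hf

end Pool.Agent.T4W
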