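import Pool.Agent.Lib_helper54.T4.Part1
import Pool.Agent.Lib_helper54.RM.UMR
import Pool.Agent.Lib_helper54.RM.Clus
import Pool.Agent.Lib_helper48.LM2.ElU

/-! Type IV: variants of part 1. -/

set_option autoImplicit false
set_option linter.unusedSectionVars false

namespace Pool.Agent.T4W

open Module LieModule Pool.Agent.T4

variable {K : Type*} [Field K] [CharZero K] [IsAlgClosed K] {g : Type*} [LieRing g]
  [LieAlgebra K g]

section one

variable (U : Type*) [AddCommGroup U] [Module K U] [FiniteDimensional K U]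
    [LieRingModule g U] [LieModule K g U] [LieModule.IsIrreducible K g U]

/-- No twisted self duality. -/
theorem no_twist (P : Set g) (hP : ∀ h ∈ P, ∀ v : U, ⁅h, ⁅h, v⁆⁆ = (1 / 4 : K) • v)
    (HT : ∀ I : LieIdeal K g, (∀ h ∈ P, h ∈ I) → I = ⊤)
    (hself : IsEmpty (U ≃ₗ⁅K, g⁆ Module.Dual K U)) (hd : 0 < finrank K U)
    (hall : ∀ h ∈ P, 2 * half K U h = finrank K U) :
    ¬ ∃ (f : U ≃ₗ[K] Module.Dual K U) (χ : g → K), ∀ (x : g) (v : U),
        f ⁅x, v⁆ = ⁅x, f v⁆ + χ x • f v := by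
  have hsc := fun h hh => scal_iff U (h := h) (hP h hh)
  have hns : ∀ h ∈ P, ¬ ∃ c : K, ∀ v : U, ⁅h, v⁆ = c • v := by
    intro h hh
    rw [hsc h hh]
    have := hall h hh
    omega
  rintro ⟨f, χ, hf⟩
  have hPd : ∀ h ∈ P, ∀ v : Module.Dual K U, ⁅h, ⁅h, v⁆⁆ = (1/4 : K) • v := by
    intro h hh v
    ext w
    show - (- v ⁅h, ⁅h, w⁆⁆) = (1/4 : K) * v w
    rw [hP h hh, map_smul, neg_neg, smul_eq_mul]
  have h0 : ∀ h ∈ P, χ h = 0 := fun h hh =>
    chi_zero (hP h hh) (hPd h hh) (fun hc => hns h hh hc.1) f (χ h) (hf h)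
  obtain ⟨e⟩ := iso_of_twist P HT f χ hf h0
  exact hself.false e

theorem onSl_F (P : Set g) (hP : ∀ h ∈ P, ∀ v : U, ⁅h, ⁅h, v⁆⁆ = (1 / 4 : K) • v)
    (HT : ∀ I : LieIdeal K g, (∀ h ∈ P, h ∈ I) → I = ⊤)
    (hself : IsEmpty (U ≃ₗ⁅K, g⁆ Module.Dual K U))
    (hns : ∃ h ∈ P, ¬ ∃ c : K, ∀ v : U, ⁅h, v⁆ = c • v)
    (N2 : (∃ h ∈ P, half K U h ≠ 0 ∧ half K U h ≠ finrank K U ∧ 2 * half K U h ≠ finrank K U) ∨
      ∀ h ∈ P, 2 * half K U h = finrank K U)
    {O : ValuationSubring K} {s : U ≃ₗ[K] U} {c : K} {r : ℕ}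
    (hs : ∀ y : g, ∃ z : g, ∀ v : U, s ⁅y, v⁆ = ⁅z, s v⁆)
    (hc : c ∈ (s : Module.End K U).charpoly.roots) (hr0 : 0 < r)
    (h1 : Pool.Agent.RM.classSize O s c + r = finrank K U)
    (hk : ∀ b ∈ (s : Module.End K U).charpoly.roots, O.valuation c ≤ O.valuation (b - c) →
      Pool.Agent.RM.classSize O s b ≤ 1) (hr : 4 * r < finrank K U) :
    ∀ z : Module.End K U, LinearMap.trace K U z = 0 →
      ∃ (y : g) (c : K), ∀ v : U, ⁅y, v⁆ = z v + c • v := by
  have hsd : (¬ ∃ (f : U ≃ₗ[K] Module.Dual K U) (χ : g → K), ∀ (x : g) (v : U),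
        f ⁅x, v⁆ = ⁅x, f v⁆ + χ x • f v) ∨
      ∃ h : g, (∀ v : U, ⁅h, ⁅h, v⁆⁆ = (1/4 : K) • v) ∧ (¬ ∃ c : K, ∀ v : U, ⁅h, v⁆ = c • v) ∧
        finrank K (Module.End.eigenspace (LieModule.toEnd K g U h) (1/2)) ≠
          finrank K (Module.End.eigenspace (LieModule.toEnd K g U h) (-(1/2))) := by
    rcases N2 with ⟨h, hh, g1, g2, g3⟩ | hall
    · right
      refine ⟨h, hP h hh, ?_, ?_⟩
      · rw [scal_iff U (hP h hh)]
        push Not
        exact ⟨g1, g2⟩
      · have hsum : half K U h + finrank K (Module.End.eigenspace (toEnd K g U h) (-(1/2))) =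
          finrank K U := (Pool.Agent.OU.sign_eq (K := K) (V := U) h (hP h hh)).1
        have h5 : finrank K (Module.End.eigenspace (LieModule.toEnd K g U h) (1/2)) =
          half K U h := rfl
        omega
    · exact Or.inl (no_twist U P hP HT hself (by omega) hall)
  obtain ⟨h, hh, hn⟩ := hns
  obtain ⟨s', g1, gD, g2, g3, -, gn, -⟩ := Pool.Agent.RM.clus hs hc hr0 h1 hk
  obtain ⟨x, c', hx, hxr⟩ := Pool.Agent.LM2.elem_U (g := g) (V := U) g1 gD g2 g3 hr0 hr
  exact Pool.Agent.RM.onU_mr g1 gD g2 g3 hr0 hr h (hP h hh) hn hsd x c' hx hxr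

end one

section fam

variable {κ : Type*} [Fintype κ] (U : κ → Type*) [∀ j, AddCommGroup (U j)]
  [∀ j, Module K (U j)] [∀ j, FiniteDimensional K (U j)] [∀ j, LieRingModule g (U j)]
  [∀ j, LieModule K g (U j)] [∀ j, LieModule.IsIrreducible K g (U j)]

/-- Part 1: the image of g contains the product of all sl(U j). -/
theorem part1F (P : Set g) (hP : ∀ h ∈ P, ∀ j (v : U j), ⁅h, ⁅h, v⁆⁆ = (1 / 4 : K) • v)
    (HT : ∀ I : LieIdeal K g, (∀ h ∈ P, h ∈ I) → I = ⊤)
    (hiso : ∀ i j, i ≠ j → 2 ≤ finrank K (U i) → IsEmpty (U i ≃ₗ⁅K, g⁆ U j) ∧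
      IsEmpty (U i ≃ₗ⁅K, g⁆ Module.Dual K (U j)))
    (on : ∀ j, 3 ≤ finrank K (U j) → P.Nonempty →
      (∃ h ∈ P, ¬ ∃ c : K, ∀ v : U j, ⁅h, v⁆ = c • v) →
      ∀ z : Module.End K (U j), LinearMap.trace K (U j) z = 0 →
      ∃ (y : g) (c : K), ∀ v : U j, ⁅y, v⁆ = z v + c • v)
    (L : ∀ i j, i ≠ j → 2 ≤ finrank K (U i) → finrank K (U i) = finrank K (U j) →
      (∀ h ∈ P, ¬ ((half K (U i) h = 0 ∨ half K (U i) h = finrank K (U i)) ∧
        (half K (U j) h = 0 ∨ half K (U j) h = finrank K (U j)))) ∨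
      ((∃ h ∈ P, ¬ ((half K (U i) h = 0 ∨ half K (U i) h = finrank K (U i)) ∧
          (half K (U j) h = 0 ∨ half K (U j) h = finrank K (U j))) ∧
          half K (U i) h ≠ half K (U j) h) ∧
        ∃ h ∈ P, ¬ ((half K (U i) h = 0 ∨ half K (U i) h = finrank K (U i)) ∧
          (half K (U j) h = 0 ∨ half K (U j) h = finrank K (U j))) ∧
          half K (U i) h + half K (U j) h ≠ finrank K (U j)))
    (z : ∀ j, Module.End K (U j)) (hz : ∀ j, LinearMap.trace K (U j) (z j) = 0) :
    ∃ y : g, ∀ j (u : U j), ⁅y, u⁆ = z j u := by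
  classical
  have hnt : ∀ j, Nontrivial (U j) := fun j => nontrivial_of_isIrreducible K g (U j)
  have hpos : ∀ j, 0 < finrank K (U j) := fun j => Module.finrank_pos
  have hsc := fun j h hh => scal_iff (U j) (h := h) (hP h hh j)
  -- nonscalar elements
  have hns : ∀ j, finrank K (U j) ≠ 1 → ∃ h ∈ P, ¬ ∃ c : K, ∀ v : U j, ⁅h, v⁆ = c • v := by
    intro j hj
    by_contra hcon
    push Not at hcon
    have h1 := HT (Pool.Agent.U4.scalId K g (U j)) (fun h hh => by
      obtain ⟨c, hc⟩ := hcon h hh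
      exact Pool.Agent.U4.mem_scalId.mpr ⟨c, hc⟩)
    have h2 : ∀ (x : g), ∃ c : K, ∀ v : U j, ⁅x, v⁆ = c • v := fun x =>
      Pool.Agent.U4.mem_scalId.mp (by rw [h1]; exact LieSubmodule.mem_top x)
    obtain ⟨v, hv⟩ := exists_ne (0 : U j)
    let S : LieSubmodule K g (U j) :=
      { Submodule.span K {v} with
        lie_mem := by
          intro x w hw
          obtain ⟨c, hc⟩ := h2 x
          rw [hc w]
          exact (Submodule.span K {v}).smul_mem c hw }
    have hS : (S : Submodule K (U j)) = Submodule.span K {v} := rfl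
    rcases eq_bot_or_eq_top S with h | h
    · rw [h] at hS
      have : v ∈ Submodule.span K {v} := Submodule.mem_span_singleton_self v
      rw [← hS] at this
      simp at this
      exact hv this
    · rw [h] at hS
      apply hj
      have h3 : (⊤ : Submodule K (U j)) = Submodule.span K {v} := by rw [← hS]; simp
      rw [← finrank_top K (U j), h3, finrank_span_singleton hv]
  by_cases hemp : P.Nonempty
  swap
  · -- no cocharacters: all modules are one dimensional
    refine ⟨0, fun j u => ?_⟩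
    have hj : finrank K (U j) = 1 := by
      by_contra hj
      obtain ⟨h, hh, -⟩ := hns j hj
      exact hemp ⟨h, hh⟩
    obtain ⟨e, he, hs⟩ := finrank_eq_one_iff'.mp hj
    obtain ⟨c, hc⟩ := hs (z j e)
    have hzc : z j = c • 1 := by
      ext u
      obtain ⟨d, rfl⟩ := hs u
      rw [map_smul, ← hc, LinearMap.smul_apply, Module.End.one_apply, smul_comm]
    have h1 := hz j
    rw [hzc, map_smul, LinearMap.trace_one, hj, smul_eq_mul, Nat.cast_one, mul_one] at h1
    rw [zero_lie, hzc, h1, zero_smul, LinearMap.zero_apply]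
  have hPd : ∀ h ∈ P, ∀ j (v : Module.Dual K (U j)), ⁅h, ⁅h, v⁆⁆ = (1/4 : K) • v := by
    intro h hh j v
    ext w
    show - (- v ⁅h, ⁅h, w⁆⁆) = (1/4 : K) * v w
    rw [hP h hh j, map_smul, neg_neg, smul_eq_mul]
  refine slFull (U := U) ?_ ?_ ?_ z hz
  · intro j hj
    by_cases h3 : 3 ≤ finrank K (U j)
    · exact on j h3 hemp (hns j hj)
    · obtain ⟨h, hh, hn⟩ := hns j hj
      intro z hz
      obtain ⟨y, hy⟩ := Pool.Agent.OU.dim2 (by have := hpos j; omega) h (hP h hh j) hn z hz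
      exact ⟨y, 0, fun v => by rw [hy, zero_smul, add_zero]⟩
  · intro j hj
    obtain ⟨h, hh, hn⟩ := hns j hj
    exact ⟨h, fun j => hP h hh j, hn⟩
  · intro i j hij hi
    have hi2 : 2 ≤ finrank K (U i) := by have := hpos i; omega
    -- duals: scalars and multiplicities
    have hsd : ∀ h : g, (∃ c : K, ∀ v : Module.Dual K (U j), ⁅h, v⁆ = c • v) →
        ∃ c : K, ∀ v : U j, ⁅h, v⁆ = c • v := by
      rintro h ⟨c, hc⟩
      refine ⟨-c, fun v => ?_⟩
      rw [← sub_eq_zero]
      rw [← Module.forall_dual_apply_eq_zero_iff K]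
      intro φ
      have h1 := LinearMap.congr_fun (hc φ) v
      have h2 : - φ ⁅h, v⁆ = c * φ v := h1
      rw [map_sub, map_smul, smul_eq_mul]
      linear_combination -h2
    constructor
    · rintro ⟨f, χ, hf⟩
      have hdim : finrank K (U i) = finrank K (U j) := f.finrank_eq
      have key : ∀ h ∈ P, ¬ ((half K (U i) h = 0 ∨ half K (U i) h = finrank K (U i)) ∧
          (half K (U j) h = 0 ∨ half K (U j) h = finrank K (U j))) →
          χ h = 0 := by
        intro h hh hno
        refine chi_zero (hP h hh i) (hP h hh j) ?_ f (χ h) (hf h)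
        rwa [hsc i h hh, hsc j h hh]
      rcases L i j hij hi2 hdim with hA | ⟨⟨h, hh, hno, hne⟩, -⟩
      · obtain ⟨e⟩ := iso_of_twist P HT f χ hf (fun h hh => key h hh (hA h hh))
        exact (hiso i j hij hi2).1.false e
      · apply hne
        have h0 := key h hh hno
        have hf' : ∀ v : U i, f ⁅h, v⁆ = ⁅h, f v⁆ := fun v => by
          rw [hf, h0, zero_smul, add_zero]
        refine LinearEquiv.finrank_eq (LinearEquiv.ofSubmodules f _ _ ?_)
        ext w
        rw [Submodule.mem_map_equiv, Module.End.mem_eigenspace_iff, Module.End.mem_eigenspace_iff]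
        obtain ⟨v, rfl⟩ := f.surjective w
        rw [LinearEquiv.symm_apply_apply, toEnd_apply_apply, toEnd_apply_apply, ← hf',
          ← map_smul]
        exact f.injective.eq_iff.symm
    · rintro ⟨f, χ, hf⟩
      have hdim : finrank K (U i) = finrank K (U j) := by
        rw [f.finrank_eq, Subspace.dual_finrank_eq]
      have key : ∀ h ∈ P, ¬ ((half K (U i) h = 0 ∨ half K (U i) h = finrank K (U i)) ∧
          (half K (U j) h = 0 ∨ half K (U j) h = finrank K (U j))) →
          χ h = 0 := by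
        intro h hh hno
        refine chi_zero (hP h hh i) (hPd h hh j) ?_ f (χ h) (hf h)
        rintro ⟨h1, h2⟩
        exact hno ⟨(hsc i h hh).mp h1, (hsc j h hh).mp (hsd h h2)⟩
      rcases L i j hij hi2 hdim with hA | ⟨-, h, hh, hno, hne⟩
      · obtain ⟨e⟩ := iso_of_twist P HT f χ hf (fun h hh => key h hh (hA h hh))
        exact (hiso i j hij hi2).2.false e
      · apply hne
        -- traces
        have h1 := Pool.Agent.OU.twist_trace_dual (K := K) (hP h hh i) (hP h hh j)
          (by rwa [hsc i h hh, hsc j h hh]) ⟨f, χ h, hf h⟩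
        have e1 := Pool.Agent.OU.sign_eq (K := K) (V := U i) h (hP h hh i)
        have e2 := Pool.Agent.OU.sign_eq (K := K) (V := U j) h (hP h hh j)
        obtain ⟨a1, a2⟩ := e1
        obtain ⟨b1, b2⟩ := e2
        rw [h1, mul_neg, b2] at a2
        have hi' : finrank K (Module.End.eigenspace (toEnd K g (U i) h) (1/2)) =
          half K (U i) h := rfl
        have hj' : finrank K (Module.End.eigenspace (toEnd K g (U j) h) (1/2)) =
          half K (U j) h := rfl
        rw [hi'] at a1 a2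
        rw [hj'] at b1 a2
        generalize finrank K (Module.End.eigenspace (toEnd K g (U i) h) (-(1/2))) = p at a1 a2
        generalize finrank K (Module.End.eigenspace (toEnd K g (U j) h) (-(1/2))) = q at b1 a2
        have a3 : ((half K (U i) h + half K (U j) h : ℕ) : K) = ((p + q : ℕ) : K) := by
          push_cast
          linear_combination -a2
        have a4 : half K (U i) h + half K (U j) h = p + q := by exact_mod_cast a3
        omega

end fam

end Pool.Agent.T4W
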