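import Pool.Agent.Lib_helper48.T4.Wedge
import Pool.Agent.Lib_helper54.T4.Multi

/-! Type IV: invariant alternating forms are combinations of invariant wedge products of invariant
2-forms and of Weil forms. -/

set_option autoImplicit false
set_option linter.unusedSectionVars false
set_option linter.unusedSimpArgs false

namespace Pool.Agent.T4W

open Finset Equiv Module

section der

variable {K : Type*} [Field K] {M : Type*}

/-- The derivation of functions given by an action. -/
def der {m : ℕ} (ρ : M → M) (F : (Fin m → M) → K) (u : Fin m → M) : K :=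
  ∑ a, F (Function.update u a (ρ (u a)))

theorem der_perm {m : ℕ} (ρ : M → M) (F : (Fin m → M) → K) (π : Perm (Fin m)) (u : Fin m → M) :
    der ρ (fun u => F (fun i => u (π i))) u = der ρ F (fun i => u (π i)) := by
  unfold der
  rw [← Equiv.sum_comp π]
  refine Finset.sum_congr rfl fun a _ => ?_
  show F (fun i => Function.update u (π a) (ρ (u (π a))) (π i)) =
    F (Function.update (fun i => u (π i)) a (ρ (u (π a))))
  congr 1
  funext i
  by_cases h : i = a
  · subst h
    rw [Function.update_self, Function.update_self]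
  · rw [Function.update_of_ne h, Function.update_of_ne (fun h' => h (π.injective h'))]

theorem der_sum {m : ℕ} {T : Type*} (s : Finset T) (ρ : M → M) (F : T → (Fin m → M) → K)
    (u : Fin m → M) : der ρ (fun u => ∑ t ∈ s, F t u) u = ∑ t ∈ s, der ρ (F t) u := by
  unfold der
  rw [Finset.sum_comm]

theorem der_mul {m : ℕ} (ρ : M → M) (c : K) (F : (Fin m → M) → K) (u : Fin m → M) :
    der ρ (fun u => c * F u) u = c * der ρ F u := by
  unfold der
  rw [Finset.mul_sum]

variable {S : Type*} [Fintype S] [DecidableEq S] {m : ℕ} {n : S → ℕ}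

/-- The derivation on products over blocks. -/
theorem der_prod (e : (Σ s, Fin (n s)) ≃ Fin m) (ρ : M → M) (D : ∀ s, (Fin (n s) → M) → K)
    (χ : S → K) (hD : ∀ s u, der ρ (D s) u = χ s * D s u) (v : Fin m → M) :
    der ρ (fun v => ∏ s, D s (fun i => v (e ⟨s, i⟩))) v =
      (∑ s, χ s) * ∏ s, D s (fun i => v (e ⟨s, i⟩)) := by
  have h0 : der ρ (fun v => ∏ s, D s (fun i => v (e ⟨s, i⟩))) v =
      ∑ a, ∏ s, D s (fun i => Function.update v a (ρ (v a)) (e ⟨s, i⟩)) := rfl
  rw [h0, ← Equiv.sum_comp e, Fintype.sum_sigma, Finset.sum_mul]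
  refine Finset.sum_congr rfl fun s₀ _ => ?_
  have h1 : ∀ i : Fin (n s₀), ∏ s, D s (fun i' => Function.update v (e ⟨s₀, i⟩)
      (ρ (v (e ⟨s₀, i⟩))) (e ⟨s, i'⟩)) =
      D s₀ (Function.update (fun i' => v (e ⟨s₀, i'⟩)) i (ρ (v (e ⟨s₀, i⟩)))) *
        ∏ s ∈ Finset.univ.erase s₀, D s (fun i' => v (e ⟨s, i'⟩)) := by
    intro i
    rw [← Finset.mul_prod_erase _ _ (Finset.mem_univ s₀)]
    congr 1
    · congr 1
      funext i'
      by_cases h : i' = i
      · subst h
        rw [Function.update_self, Function.update_self]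
      · rw [Function.update_of_ne h, Function.update_of_ne]
        intro h'
        have := e.injective h'
        rw [Sigma.mk.injEq] at this
        exact h (eq_of_heq this.2)
    · refine Finset.prod_congr rfl fun s hs => ?_
      congr 1
      funext i'
      rw [Function.update_of_ne]
      intro h'
      have := e.injective h'
      rw [Sigma.mk.injEq] at this
      exact Finset.ne_of_mem_erase hs this.1
  rw [Finset.sum_congr rfl fun i _ => h1 i, ← Finset.sum_mul]
  have h2 := hD s₀ (fun i' => v (e ⟨s₀, i'⟩))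
  unfold der at h2
  rw [h2, ← Finset.mul_prod_erase _ _ (Finset.mem_univ s₀), mul_assoc]

theorem der_Wg (e : (Σ s, Fin (n s)) ≃ Fin m) (ρ : M → M) (D : ∀ s, (Fin (n s) → M) → K)
    (χ : S → K) (hD : ∀ s u, der ρ (D s) u = χ s * D s u) (v : Fin m → M) :
    der ρ (Wg e D) v = (∑ s, χ s) * Wg e D v := by
  have h0 : der ρ (Wg e D) v = ∑ σ : Perm (Fin m), der ρ (fun v => ((Perm.sign σ : ℤ) : K) *
      ∏ s, D s (fun i => v (σ (e ⟨s, i⟩)))) v := der_sum _ _ _ _
  rw [h0]
  unfold Wg
  rw [Finset.mul_sum]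
  refine Finset.sum_congr rfl fun σ _ => ?_
  rw [der_mul]
  have h1 := der_perm ρ (fun v => ∏ s, D s (fun i => v (e ⟨s, i⟩))) σ v
  rw [der_prod e ρ D χ hD] at h1
  have h2 : der ρ (fun v => ∏ s, D s (fun i => v (σ (e ⟨s, i⟩)))) v =
    (∑ s, χ s) * ∏ s, D s (fun i => v (σ (e ⟨s, i⟩))) := h1
  rw [h2]
  ring

variable [CharZero K]

theorem der_alt {k : ℕ} (ρ : M → M) (F : (Fin k → M) → K) (hF : ∀ u, der ρ F u = 0) (u : Fin k → M) :
    der ρ (alt F) u = 0 := by
  have h0 : alt F = fun u => (k.factorial : K)⁻¹ * ∑ π : Perm (Fin k), ((Perm.sign π : ℤ) : K) *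
      F (fun i => u (π i)) := by
    funext u
    unfold alt
    rw [Pi.smul_apply, Finset.sum_apply, smul_eq_mul]
    rfl
  rw [h0, der_mul, der_sum]
  rw [Finset.sum_eq_zero, mul_zero]
  intro π _
  rw [der_mul, der_perm, hF, mul_zero]

end der

section weil

variable {K : Type*} [Field K] [CharZero K] {M V : Type*} [AddCommGroup M] [Module K M]
  [AddCommGroup V] [Module K V]

theorem alt_weil {k : ℕ} (δ : V [⋀^Fin k]→ₗ[K] K) (l : Fin k → M →ₗ[K] V) :
    alt (fun u : Fin k → M => δ (fun i => l i (u i))) ∈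
      Submodule.span K {B : (Fin k → M) → K | ∃ T : Finset (Fin k),
        B = fun u => δ (fun i => (∑ a ∈ T, l a) (u i))} := by
  have h1 : ∀ (π : Perm (Fin k)) (u : Fin k → M), ((Perm.sign π : ℤ) : K) *
      δ (fun i => l i (u (π i))) = δ (fun i => l (π⁻¹ i) (u i)) := by
    intro π u
    have h := δ.map_perm (fun i => l (π⁻¹ i) (u i)) π
    have h2 : (fun i => l (π⁻¹ i) (u i)) ∘ π = fun i => l i (u (π i)) := by
      funext i
      show l (π⁻¹ (π i)) (u (π i)) = _
      have h3 : π⁻¹ (π i) = i := by simp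
      rw [h3]
    rw [h2] at h
    rw [h, Units.smul_def, zsmul_eq_mul, ← mul_assoc, ← Int.cast_mul]
    have h5 : ((Perm.sign π : ℤ) * (Perm.sign π : ℤ)) = 1 := by
      rw [← Units.val_mul, Int.units_mul_self, Units.val_one]
    rw [h5, Int.cast_one, one_mul]
  have h2 : alt (fun u : Fin k → M => δ (fun i => l i (u i))) = (k.factorial : K)⁻¹ •
      ∑ π : Perm (Fin k), fun u : Fin k → M => δ (fun i => l (π i) (u i)) := by
    unfold alt
    congr 1
    rw [← Equiv.sum_comp (Equiv.inv (Perm (Fin k)))]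
    refine Finset.sum_congr rfl fun π _ => ?_
    funext u
    show ((Perm.sign π⁻¹ : ℤ) : K) * δ (fun i => l i (u (π⁻¹ i))) = _
    rw [h1, inv_inv]
  rw [h2]
  refine Submodule.smul_mem _ _ ?_
  have h3 := polar_sum (k := k) (fun f => (fun u : Fin k → M => δ (fun i => l (f i) (u i))))
  rw [← h3]
  refine Submodule.sum_mem _ fun T _ => ?_
  refine zsmul_mem ?_ _
  have h4 : (∑ f : Fin k → Fin k, (if ∀ i, f i ∈ T then
      (fun u : Fin k → M => δ (fun i => l (f i) (u i))) else 0)) =
      fun u => δ (fun i => (∑ a ∈ T, l a) (u i)) := by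
    funext u
    rw [Finset.sum_apply]
    have h5 := δ.toMultilinearMap.map_sum_finset (fun i a => l a (u i)) (fun _ => T)
    have h6 : (δ (fun i => (∑ a ∈ T, l a) (u i))) = δ.toMultilinearMap (fun i => ∑ a ∈ T, l a (u i)) := by
      show _ = δ _
      congr 1
      funext i
      rw [LinearMap.sum_apply]
    rw [h6, h5, ← Finset.sum_filter_add_sum_filter_not Finset.univ
      (fun f : Fin k → Fin k => ∀ i, f i ∈ T), Finset.sum_eq_zero (s := Finset.univ.filter
      (fun f : Fin k → Fin k => ¬ ∀ i, f i ∈ T)), add_zero]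
    · refine Finset.sum_congr ?_ fun f hf => ?_
      · ext f
        rw [Fintype.mem_piFinset, Finset.mem_filter]
        simp
      · rw [Fintype.mem_piFinset] at hf
        rw [if_pos hf]
        rfl
    · intro f hf
      rw [if_neg (Finset.mem_filter.mp hf).2]
      rfl
  rw [h4]
  exact Submodule.subset_span ⟨T, rfl⟩

end weil

end Pool.Agent.T4W
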