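import Pool.Agent.Lib_helper48.T4.Main

/-! Type IV: assembly. -/

set_option autoImplicit false
set_option linter.unusedSectionVars false
set_option linter.unusedSimpArgs false

namespace Pool.Agent.T4W

open Finset Equiv Module Pool.Agent.OT Pool.Agent.MFT Pool.Agent.T4

section reindex

variable {K : Type*} [Field K] {M : Type*} {S S' : Type*} [Fintype S] [DecidableEq S]
  [Fintype S'] [DecidableEq S'] {m : ℕ} {n : S → ℕ}

theorem Wg_reindex (E : S' ≃ S) (e : (Σ s, Fin (n s)) ≃ Fin m) (D : ∀ s, (Fin (n s) → M) → K) :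
    Wg ((Equiv.sigmaCongrLeft (β := fun s => Fin (n s)) E).trans e) (fun s' => D (E s')) =
      Wg e D := by
  funext v
  unfold Wg
  refine Finset.sum_congr rfl fun σ _ => ?_
  congr 1
  exact Equiv.prod_comp E (fun s => D s (fun i => v (σ (e ⟨s, i⟩))))

/-- The shape of the blocks. -/
def sh {k w : ℕ} (d : Fin w → ℕ) :
    (Σ s : Fin k ⊕ Fin w, Fin (Sum.elim (fun _ => 2) d s)) ≃
      (Fin k ⊕ Fin k) ⊕ (Σ s : Fin w, Fin (d s)) where
  toFun
    | ⟨Sum.inl t, i⟩ => if i.val = 0 then Sum.inl (Sum.inl t) else Sum.inl (Sum.inr t)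
    | ⟨Sum.inr s, i⟩ => Sum.inr ⟨s, i⟩
  invFun
    | Sum.inl (Sum.inl t) => ⟨Sum.inl t, ⟨0, Nat.zero_lt_two⟩⟩
    | Sum.inl (Sum.inr t) => ⟨Sum.inl t, ⟨1, Nat.one_lt_two⟩⟩
    | Sum.inr ⟨s, i⟩ => ⟨Sum.inr s, i⟩
  left_inv := by
    rintro ⟨t | s, ⟨i, hi⟩⟩
    · have h2 : i < 2 := hi
      rcases i with _ | _ | i
      · rfl
      · rfl
      · omega
    · rfl
  right_inv := by
    rintro ((t | t) | ⟨s, i⟩) <;> rfl

end reindex

section asm

variable {K : Type*} [Field K] {κ : Type*}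
variable {U : κ → Type*} [∀ j, AddCommGroup (U j)] [∀ j, Module K (U j)]
variable {g : Type*} [LieRing g] [∀ j, LieRingModule g (U j)]
variable {M : Type*} [AddCommGroup M] [Module K M]

/-- D is an invariant 2-form or a Weil form for U j or its dual, the choice given by ε. -/
def Block (ρ : g → M → M) (K : Type*) [Field K] [Module K M] (U : κ → Type*) [∀ j, AddCommGroup (U j)]
    [∀ j, Module K (U j)] [LieAlgebra K g] [∀ j, LieRingModule g (U j)] [∀ j, LieModule K g (U j)]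
    (ε : κ → Bool) {k : ℕ}
    (D : M [⋀^Fin k]→ₗ[K] K) : Prop :=
  (k = 2 ∧ Inv ρ (fun v => D v)) ∨ ∃ j, (ε j = false ∧ WeilForm ρ (U j) D) ∨
    (ε j = true ∧ WeilForm ρ (Module.Dual K (U j)) D)

/-- Invariant wedge products of blocks. -/
def TG (ρ : g → M → M) (K : Type*) [Field K] [Module K M] (U : κ → Type*) [∀ j, AddCommGroup (U j)]
    [∀ j, Module K (U j)] [LieAlgebra K g] [∀ j, LieRingModule g (U j)] [∀ j, LieModule K g (U j)]
    (m : ℕ) :
    Set ((Fin m → M) → K) :=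
  {G | ∃ (N : ℕ) (k : Fin N → ℕ) (e : (Σ s, Fin (k s)) ≃ Fin m)
    (D : ∀ s, M [⋀^Fin (k s)]→ₗ[K] K) (ε : κ → Bool),
    (∀ s, Block ρ K U ε (D s)) ∧ Inv ρ (wedge e D) ∧ G = wedge e D}

variable [LieAlgebra K g] [∀ j, LieModule K g (U j)]
variable {S : Type*} [Fintype S] [DecidableEq S] {m : ℕ} {n : S → ℕ}

theorem mem_TG (ρ : g → M → M) (e : (Σ s : S, Fin (n s)) ≃ Fin m)
    (D : ∀ s, M [⋀^Fin (n s)]→ₗ[K] K)
    (ε : κ → Bool) (hD : ∀ s, Block ρ K U ε (D s)) (χ : g → S → K)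
    (hχ : ∀ y s u, der (ρ y) (fun u => D s u) u = χ y s * D s u) (h0 : ∀ y, ∑ s, χ y s = 0) :
    Wg e (fun s u => D s u) ∈ TG ρ K U m := by
  let E : Fin (Fintype.card S) ≃ S := (Fintype.equivFin S).symm
  have h1 : wedge ((Equiv.sigmaCongrLeft (β := fun s => Fin (n s)) E).trans e)
      (fun s => D (E s)) = Wg e (fun s u => D s u) :=
    Wg_reindex E e (fun s u => D s u)
  refine ⟨Fintype.card S, fun s => n (E s),
    (Equiv.sigmaCongrLeft (β := fun s => Fin (n s)) E).trans e, fun s => D (E s), ε,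
    fun s => hD (E s), ?_, h1.symm⟩
  rw [h1]
  intro y v
  have h2 := der_Wg e (ρ y) (fun s u => D s u) (χ y) (hχ y) v
  rw [h0, zero_mul] at h2
  exact h2

end asm

section step

variable {K : Type*} [Field K] [CharZero K]
variable {ι κ : Type*} [Fintype ι] [Fintype κ] [DecidableEq ι] [DecidableEq κ]
variable {W : ι → Type*} [∀ i, AddCommGroup (W i)] [∀ i, Module K (W i)]
  [∀ i, FiniteDimensional K (W i)]
variable {U : κ → Type*} [∀ j, AddCommGroup (U j)] [∀ j, Module K (U j)]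
  [∀ j, FiniteDimensional K (U j)]
variable {ω : ∀ i, LinearMap.BilinForm K (W i)}
variable {g : Type*} [LieRing g] [LieAlgebra K g]
  [∀ i, LieRingModule g (W i)] [∀ i, LieModule K g (W i)]
  [∀ j, LieRingModule g (U j)] [∀ j, LieModule K g (U j)]
variable {M : Type*} [AddCommGroup M] [Module K M] {m : ℕ}

theorem step (hinv : ∀ i (x : g) (v w : W i), ω i ⁅x, v⁆ w = - ω i v ⁅x, w⁆)
    (ρ : g → M → M) (P : Fin m → M →ₗ[K] MSp K W U)
    (hP : ∀ a (y : g) v, P a (ρ y v) = actM K y (P a v))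
    {G : (Fin m → MSp K W U) → K} (hG : G ∈ SD K W U g ω (Fin m)) :
    (fun v : Fin m → M => ∑ σ : Perm (Fin m), ((Perm.sign σ : ℤ) : K) *
      G (fun a => P a (v (σ a)))) ∈ Submodule.span K (TG ρ K U m) := by
  classical
  obtain ⟨k, w, c, cs, e0, hcs, htr, rfl⟩ := hG
  let d : Fin w → ℕ := fun s => finrank K (U (cs s).1)
  let n : Fin k ⊕ Fin w → ℕ := Sum.elim (fun _ => 2) d
  let e : (Σ s : Fin k ⊕ Fin w, Fin (n s)) ≃ Fin m := (sh d).trans e0
  let b : Fin k → LinearMap.BilinForm K M := fun t =>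
    ((tot ω).comp ((prj K W U (c t)) ∘ₗ P (e0 (Sum.inl (Sum.inl t))))
      (P (e0 (Sum.inl (Sum.inr t)))))
  have hb : ∀ t v v', b t v v' = tot ω (prj K W U (c t) (P (e0 (Sum.inl (Sum.inl t))) v))
      (P (e0 (Sum.inl (Sum.inr t))) v') := fun _ _ _ => rfl
  have hbinv : ∀ t (y : g) v v', b t (ρ y v) v' + b t v (ρ y v') = 0 := by
    intro t y v v'
    rw [hb, hb, hP, hP]
    have h1 : prj K W U (c t) (actM K y (P (e0 (Sum.inl (Sum.inl t))) v)) =
        actM K y (prj K W U (c t) (P (e0 (Sum.inl (Sum.inl t))) v)) := by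
      have := LinearMap.congr_fun (actL_comm (K := K) (W := W) (U := U) y (c t))
        (P (e0 (Sum.inl (Sum.inl t))) v)
      exact this.symm
    rw [h1]
    have h2 := actL_sk (K := K) (W := W) (U := U) (ω := ω) hinv y
      (prj K W U (c t) (P (e0 (Sum.inl (Sum.inl t))) v)) (P (e0 (Sum.inl (Sum.inr t))) v')
    rw [actL_apply, actL_apply] at h2
    rw [h2]
    ring
  let D0 : ∀ s, (Fin (n s) → M) → K := fun s => match s with
    | Sum.inl t => fun u : Fin 2 → M => b t (u 0) (u 1)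
    | Sum.inr s => fun u : Fin (d s) → M => vol K W U (cs s).1 (cs s).2
        (fun i => P (e0 (Sum.inr ⟨s, i⟩)) (u i))
  have hG : (fun v : Fin m → M => ∑ σ : Perm (Fin m), ((Perm.sign σ : ℤ) : K) *
      ((∏ t, tot ω (prj K W U (c t) (P (e0 (Sum.inl (Sum.inl t)))
        (v (σ (e0 (Sum.inl (Sum.inl t))))))) (P (e0 (Sum.inl (Sum.inr t)))
          (v (σ (e0 (Sum.inl (Sum.inr t)))))))
      * ∏ s, vol K W U (cs s).1 (cs s).2 (fun i => P (e0 (Sum.inr ⟨s, i⟩))
        (v (σ (e0 (Sum.inr ⟨s, i⟩))))))) = Wg e D0 := by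
    funext v
    unfold Wg
    refine Finset.sum_congr rfl fun σ _ => ?_
    congr 1
    rw [Fintype.prod_sum_type]
    rfl
  show (fun v : Fin m → M => ∑ σ : Perm (Fin m), ((Perm.sign σ : ℤ) : K) *
      ((∏ t, tot ω (prj K W U (c t) (P (e0 (Sum.inl (Sum.inl t)))
        (v (σ (e0 (Sum.inl (Sum.inl t))))))) (P (e0 (Sum.inl (Sum.inr t)))
          (v (σ (e0 (Sum.inl (Sum.inr t)))))))
      * ∏ s, vol K W U (cs s).1 (cs s).2 (fun i => P (e0 (Sum.inr ⟨s, i⟩))
        (v (σ (e0 (Sum.inr ⟨s, i⟩))))))) ∈ Submodule.span K (TG ρ K U m)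
  rw [hG, ← Wg_alt]
  let ε : κ → Bool := fun j => decide (∃ s, (cs s).1 = j ∧ (cs s).2 = true)
  have hε : ∀ s, ε (cs s).1 = (cs s).2 := by
    intro s
    cases h : (cs s).2 with
    | true => exact decide_eq_true ⟨s, rfl, h⟩
    | false =>
      refine decide_eq_false ?_
      rintro ⟨s', h1, h2⟩
      rw [hcs s' s h1, h] at h2
      exact absurd h2 (by decide)
  let χ : g → Fin k ⊕ Fin w → K := fun y => Sum.elim (fun _ => 0)
    (fun s => sg K (cs s).2 * LinearMap.trace K (U (cs s).1) (LieModule.toEnd K g (U (cs s).1) y))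
  let A : ∀ s, Set ((Fin (n s) → M) → K) := fun s => {B | ∃ B' : M [⋀^Fin (n s)]→ₗ[K] K,
    Block ρ K U ε B' ∧ (∀ y u, der (ρ y) (fun u => B' u) u = χ y s * B' u) ∧ B = fun u => B' u}
  have hA : ∀ s, alt (D0 s) ∈ Submodule.span K (A s) := by
    intro s
    rcases s with t | s
    · obtain ⟨B, hB1, hB2⟩ := alt_pair ρ (b t) (hbinv t)
      apply Submodule.subset_span
      refine ⟨B, Or.inl ⟨rfl, hB1⟩, ?_, hB2⟩
      intro y u
      have h1 : der (ρ y) (fun u => B u) u = 0 := hB1 y u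
      exact h1.trans (zero_mul _).symm
    · have h1 := alt_vol (K := K) (W := W) ρ (cs s).1 (cs s).2
        (fun i => P (e0 (Sum.inr ⟨s, i⟩))) (fun i y v => hP _ y v)
      refine Submodule.span_mono ?_ h1
      rintro B ⟨B', hB1, hB2, hB3⟩
      refine ⟨B', Or.inr ⟨(cs s).1, ?_⟩, hB2, hB3⟩
      rw [hε]
      exact hB1
  have h1 := mem_span_multi (WgM e) A (fun s => alt (D0 s)) hA
  rw [WgM_apply] at h1
  refine Submodule.span_mono ?_ h1
  rintro q ⟨y, hy, rfl⟩
  choose B hB1 hB2 hB3 using hy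
  have h2 : y = fun s u => B s u := funext hB3
  rw [h2, WgM_apply]
  refine mem_TG ρ e B ε hB1 χ (fun y s u => hB2 s y u) (fun y => ?_)
  rw [Fintype.sum_sum_type]
  show ∑ _t : Fin k, (0 : K) + ∑ s, sg K (cs s).2 * LinearMap.trace K (U (cs s).1)
    (LieModule.toEnd K g (U (cs s).1) y) = 0
  rw [htr, Finset.sum_const_zero, add_zero]

theorem assembly (hU : ∀ j, 0 < finrank K (U j)) (hω : ∀ i, (ω i).Nondegenerate)
    (halt : ∀ i v w, ω i v w = - ω i w v)
    (hfull : ∀ (x : ∀ i, Module.End K (W i)) (z : ∀ j, Module.End K (U j)),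
      (∀ i v w, ω i (x i v) w = - ω i v (x i w)) → (∀ j, LinearMap.trace K (U j) (z j) = 0) →
      ∃ y : g, (∀ i (v : W i), ⁅y, v⁆ = x i v) ∧ ∀ j (u : U j), ⁅y, u⁆ = z j u)
    (hinv : ∀ i (x : g) (v w : W i), ω i ⁅x, v⁆ w = - ω i v ⁅x, w⁆)
    {T : Type*} [Fintype T] (ρ : g → M → M) (P : T → M →ₗ[K] MSp K W U)
    (I : T → MSp K W U →ₗ[K] M) (hPI : ∀ v, ∑ t, I t (P t v) = v)
    (hP : ∀ t (y : g) v, P t (ρ y v) = actM K y (P t v))
    (hI : ∀ t (y : g) x, ρ y (I t x) = I t (actM K y x))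
    (f : M [⋀^Fin m]→ₗ[K] K) (hf : Inv ρ (fun v => f v)) :
    (fun v => f v) ∈ Submodule.span K (TG ρ K U m) := by
  classical
  let fc : (Fin m → T) → MultilinearMap K (fun _ : Fin m => MSp K W U) K := fun c =>
    f.toMultilinearMap.compLinearMap (fun a => I (c a))
  have hfc : ∀ c u, fc c u = f (fun a => I (c a) (u a)) := fun _ _ => rfl
  have hinvc : ∀ c (y : g) (u : Fin m → MSp K W U),
      ∑ a, fc c (Function.update u a (actM K y (u a))) = 0 := by
    intro c y u
    refine Eq.trans ?_ (hf y (fun a => I (c a) (u a)))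
    refine Finset.sum_congr rfl fun a _ => ?_
    rw [hfc]
    show f _ = f _
    congr 1
    funext a'
    by_cases h : a' = a
    · subst h
      rw [Function.update_self, Function.update_self, hI]
    · rw [Function.update_of_ne h, Function.update_of_ne h]
  have hmulti : ∀ c, (fun u => fc c u) ∈ Submodule.span K (SD K W U g ω (Fin m)) := fun c =>
    multi hU hω halt hfull hinv (fc c) (hinvc c)
  have hsum : ∀ v : Fin m → M, f v = ∑ c : Fin m → T, fc c (fun a => P (c a) (v a)) := by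
    intro v
    have h1 : f v = f.toMultilinearMap (fun a => ∑ t, I t (P t (v a))) := by
      show f v = f _
      congr 1
      funext a
      exact (hPI (v a)).symm
    rw [h1, MultilinearMap.map_sum]
    rfl
  -- antisymmetrisation
  have hm : (m.factorial : K) ≠ 0 := by exact_mod_cast m.factorial_ne_zero
  have hanti : (fun v => f v) = (m.factorial : K)⁻¹ • ∑ c : Fin m → T,
      fun v : Fin m → M => ∑ σ : Perm (Fin m), ((Perm.sign σ : ℤ) : K) *
        fc c (fun a => P (c a) (v (σ a))) := by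
    funext v
    rw [Pi.smul_apply, Finset.sum_apply, Finset.sum_comm, smul_eq_mul]
    have h3 : ∀ σ : Perm (Fin m), ∑ c : Fin m → T, ((Perm.sign σ : ℤ) : K) *
        fc c (fun a => P (c a) (v (σ a))) = f v := by
      intro σ
      rw [← Finset.mul_sum, ← hsum (fun a => v (σ a))]
      have h4 : f (fun a => v (σ a)) = Perm.sign σ • f v := f.map_perm v σ
      rw [h4, Units.smul_def, zsmul_eq_mul, ← mul_assoc, ← Int.cast_mul]
      have h5 : ((Perm.sign σ : ℤ) * (Perm.sign σ : ℤ)) = 1 := by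
        rw [← Units.val_mul, Int.units_mul_self, Units.val_one]
      rw [h5, Int.cast_one, one_mul]
    rw [Finset.sum_congr rfl fun σ _ => h3 σ, Finset.sum_const, Finset.card_univ,
      Fintype.card_perm, Fintype.card_fin, nsmul_eq_mul, ← mul_assoc, inv_mul_cancel₀ hm, one_mul]
  rw [hanti]
  refine Submodule.smul_mem _ _ (Submodule.sum_mem _ fun c _ => ?_)
  let A : ((Fin m → MSp K W U) → K) →ₗ[K] ((Fin m → M) → K) :=
    { toFun := fun G v => ∑ σ : Perm (Fin m), ((Perm.sign σ : ℤ) : K) *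
        G (fun a => P (c a) (v (σ a)))
      map_add' := by
        intro G H
        funext v
        simp only [Pi.add_apply, mul_add, Finset.sum_add_distrib]
      map_smul' := by
        intro r G
        funext v
        simp only [Pi.smul_apply, smul_eq_mul, RingHom.id_apply, Finset.mul_sum]
        refine Finset.sum_congr rfl fun σ _ => ?_
        ring }
  have hle : Submodule.span K (SD K W U g ω (Fin m)) ≤
      (Submodule.span K (TG ρ K U m)).comap A := by
    rw [Submodule.span_le]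
    intro G hG
    exact step hinv ρ (fun a => P (c a)) (fun a y v => hP _ y v) hG
  exact hle (hmulti c)

end step

end Pool.Agent.T4W
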