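import Pool.Agent.Lib_helper48.T4.Alt

/-! Type IV: invariant alternating forms are combinations of invariant wedge products of invariant
2-forms and of Weil forms. -/

set_option autoImplicit false
set_option linter.unusedSectionVars false
set_option linter.unusedSimpArgs false

namespace Pool.Agent.T4W

open Finset Equiv Module Pool.Agent.OT Pool.Agent.MFT Pool.Agent.T4

section defs

variable {K : Type*} [Field K] {g M : Type*} [AddCommGroup M] [Module K M]

/-- The function G of m arguments is invariant under the action ρ. -/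
def Inv (ρ : g → M → M) {m : ℕ} (G : (Fin m → M) → K) : Prop :=
  ∀ (y : g) (v : Fin m → M), ∑ a, G (Function.update v a (ρ y (v a))) = 0

/-- D is a Weil form: D = δ o l for an equivariant linear map l to the g-module V and an alternating
form δ of degree dim V on V. -/
def WeilForm (ρ : g → M → M) [LieRing g] (V : Type*) [AddCommGroup V] [Module K V]
    [LieRingModule g V] {k : ℕ} (D : M [⋀^Fin k]→ₗ[K] K) : Prop :=
  finrank K V = k ∧ ∃ l : M →ₗ[K] V, (∀ (y : g) (v : M), l (ρ y v) = ⁅y, l v⁆) ∧
    ∃ δ : V [⋀^Fin k]→ₗ[K] K, D = δ.compLinearMap l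

/-- The wedge product up to a scalar. -/
def wedge {N m : ℕ} {k : Fin N → ℕ} (e : (Σ s, Fin (k s)) ≃ Fin m)
    (D : ∀ s, M [⋀^Fin (k s)]→ₗ[K] K) (v : Fin m → M) : K :=
  ∑ σ : Perm (Fin m), ((Perm.sign σ : ℤ) : K) * ∏ s, D s (fun i => v (σ (e ⟨s, i⟩)))

end defs

section blocks

variable {K : Type*} [Field K] [CharZero K] {g M : Type*} [AddCommGroup M] [Module K M]

theorem alt_multi {k : ℕ} (F : MultilinearMap K (fun _ : Fin k => M) K) :
    ∃ B : M [⋀^Fin k]→ₗ[K] K, alt (fun u => F u) = fun u => B u := by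
  refine ⟨(k.factorial : K)⁻¹ • MultilinearMap.alternatization F, ?_⟩
  funext u
  unfold alt
  rw [AlternatingMap.smul_apply, MultilinearMap.alternatization_apply, Pi.smul_apply,
    Finset.sum_apply]
  congr 1
  refine Finset.sum_congr rfl fun π _ => ?_
  rw [Units.smul_def, zsmul_eq_mul, MultilinearMap.domDomCongr_apply]
  rfl

/-- A bilinear form as a multilinear map. -/
def bM (b : LinearMap.BilinForm K M) : MultilinearMap K (fun _ : Fin 2 => M) K where
  toFun u := b (u 0) (u 1)
  map_update_add' := by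
    intro inst u i x y
    have : inst = instDecidableEqFin 2 := Subsingleton.elim _ _
    subst this
    fin_cases i <;> simp [Function.update]
  map_update_smul' := by
    intro inst u i x y
    have : inst = instDecidableEqFin 2 := Subsingleton.elim _ _
    subst this
    fin_cases i <;> simp [Function.update]

theorem alt_pair (ρ : g → M → M) (b : LinearMap.BilinForm K M)
    (hb : ∀ y v w, b (ρ y v) w + b v (ρ y w) = 0) :
    ∃ B : M [⋀^Fin 2]→ₗ[K] K, Inv ρ (fun u => B u) ∧
      alt (fun u : Fin 2 → M => b (u 0) (u 1)) = fun u => B u := by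
  obtain ⟨B, hB⟩ := alt_multi (bM b)
  refine ⟨B, ?_, hB⟩
  intro y u
  have h := der_alt (ρ y) (fun u => (bM b) u) (fun u => ?_) u
  · rw [hB] at h
    exact h
  · unfold der
    rw [Fin.sum_univ_two]
    have h1 := hb y (u 0) (u 1)
    have h2 : (bM b) (Function.update u 0 (ρ y (u 0))) = b (ρ y (u 0)) (u 1) := by
      show b (Function.update u 0 (ρ y (u 0)) 0) (Function.update u 0 (ρ y (u 0)) 1) = _
      rw [Function.update_self, Function.update_of_ne (by decide)]
    have h3 : (bM b) (Function.update u 1 (ρ y (u 1))) = b (u 0) (ρ y (u 1)) := by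
      show b (Function.update u 1 (ρ y (u 1)) 0) (Function.update u 1 (ρ y (u 1)) 1) = _
      rw [Function.update_self, Function.update_of_ne (by decide)]
    show (bM b) (Function.update u 0 (ρ y (u 0))) + (bM b) (Function.update u 1 (ρ y (u 1))) = 0
    rw [h2, h3, h1]

end blocks

section vol

variable {K : Type*} [Field K] [CharZero K]
variable {ι κ : Type*} [Fintype ι] [Fintype κ] [DecidableEq ι] [DecidableEq κ]
variable {W : ι → Type*} [∀ i, AddCommGroup (W i)] [∀ i, Module K (W i)]
  [∀ i, FiniteDimensional K (W i)]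
variable {U : κ → Type*} [∀ j, AddCommGroup (U j)] [∀ j, Module K (U j)]
  [∀ j, FiniteDimensional K (U j)]
variable {ω : ∀ i, LinearMap.BilinForm K (W i)}
variable {g : Type*} [LieRing g] [LieAlgebra K g]
  [∀ i, LieRingModule g (W i)] [∀ i, LieModule K g (W i)]
  [∀ j, LieRingModule g (U j)] [∀ j, LieModule K g (U j)]
variable {M : Type*} [AddCommGroup M] [Module K M]

/-- Coordinates on U j. -/
noncomputable def cU (K : Type*) [Field K] {κ : Type*} (U : κ → Type*) [∀ j, AddCommGroup (U j)]
    [∀ j, Module K (U j)] [∀ j, FiniteDimensional K (U j)] (j : κ) :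
    U j →ₗ[K] (Fin (finrank K (U j)) → K) where
  toFun u k := (finBasis K (U j)).coord k u
  map_add' v w := by funext k; exact map_add _ _ _
  map_smul' r v := by funext k; exact map_smul _ _ _

/-- Coordinates on the dual of U j. -/
noncomputable def cD (K : Type*) [Field K] {κ : Type*} (U : κ → Type*) [∀ j, AddCommGroup (U j)]
    [∀ j, Module K (U j)] [∀ j, FiniteDimensional K (U j)] (j : κ) :
    Module.Dual K (U j) →ₗ[K] (Fin (finrank K (U j)) → K) where
  toFun u k := u (finBasis K (U j) k)
  map_add' v w := rfl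
  map_smul' r v := rfl

theorem inD_self' (j : κ) (u : Module.Dual K (U j)) : ((inD (K := K) (W := W) j u).2 j).2 = u := by
  unfold inD
  show ((Pi.single j (0, u) : ∀ j, U j × Module.Dual K (U j)) j).2 = u
  rw [Pi.single_eq_same]

/-- The alternated volume form with different equivariant maps is a combination of Weil forms. -/
theorem alt_vol (ρ : g → M → M) (j : κ) (b : Bool)
    (P : Fin (finrank K (U j)) → M →ₗ[K] MSp K W U)
    (hP : ∀ i (y : g) v, P i (ρ y v) = actM K y (P i v)) :
    alt (fun u : Fin (finrank K (U j)) → M => vol K W U j b (fun i => P i (u i))) ∈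
      Submodule.span K {B : (Fin (finrank K (U j)) → M) → K |
        ∃ B' : M [⋀^Fin (finrank K (U j))]→ₗ[K] K,
          ((b = false ∧ WeilForm ρ (U j) B') ∨ (b = true ∧ WeilForm ρ (Module.Dual K (U j)) B')) ∧
          (∀ (y : g) u, der (ρ y) (fun u => B' u) u =
            (sg K b * LinearMap.trace K (U j) (LieModule.toEnd K g (U j) y)) * B' u) ∧
          B = fun u => B' u} := by
  cases b with
  | false =>
    let l : Fin (finrank K (U j)) → M →ₗ[K] U j := fun i =>
      (LinearMap.fst K (U j) (Module.Dual K (U j)) ∘ₗ LinearMap.proj j ∘ₗ LinearMap.snd K _ _) ∘ₗ P i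
    have la : ∀ i v, l i v = ((P i v).2 j).1 := fun _ _ => rfl
    let δ : U j [⋀^Fin (finrank K (U j))]→ₗ[K] K :=
      (Matrix.detRowAlternating (R := K) (n := Fin (finrank K (U j)))).compLinearMap (cU K U j)
    have hv : ∀ w : Fin (finrank K (U j)) → MSp K W U, vol K W U j false w =
      δ (fun i => ((w i).2 j).1) := fun _ => rfl
    have h := alt_weil δ l
    refine Submodule.span_mono ?_ h
    rintro B ⟨T, rfl⟩
    have heq : ∀ (y : g) v, (∑ a ∈ T, l a) (ρ y v) = ⁅y, (∑ a ∈ T, l a) v⁆ := by
      intro y v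
      rw [LinearMap.sum_apply, LinearMap.sum_apply, lie_sum]
      refine Finset.sum_congr rfl fun a _ => ?_
      rw [la, la, hP]
      rfl
    refine ⟨δ.compLinearMap (∑ a ∈ T, l a), Or.inl ⟨rfl, rfl, ∑ a ∈ T, l a, heq, δ, rfl⟩, ?_, rfl⟩
    intro y u
    have hact := vol_act (W := W) (fun _ => 0) (fun j => LieModule.toEnd K g (U j) y) j false
      (fun i => inU j ((∑ a ∈ T, l a) (u i)))
    rw [hv] at hact
    have e1 : (fun i => ((inU (K := K) (W := W) j ((∑ a ∈ T, l a) (u i))).2 j).1) =
      fun i => (∑ a ∈ T, l a) (u i) := by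
      funext i; rw [inU_self]
    rw [e1] at hact
    have e2 : (δ.compLinearMap (∑ a ∈ T, l a)) u = δ (fun i => (∑ a ∈ T, l a) (u i)) := rfl
    rw [e2, ← hact]
    unfold der
    refine Finset.sum_congr rfl fun i _ => ?_
    rw [hv]
    show δ (fun a => (∑ a ∈ T, l a) (Function.update u i (ρ y (u i)) a)) = _
    congr 1
    funext a
    by_cases h : a = i
    · subst h
      rw [Function.update_self, Function.update_self, heq, Yx_snd1, inU_self]
      rfl
    · rw [Function.update_of_ne h, Function.update_of_ne h, inU_self]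
  | true =>
    let l : Fin (finrank K (U j)) → M →ₗ[K] Module.Dual K (U j) := fun i =>
      (LinearMap.snd K (U j) (Module.Dual K (U j)) ∘ₗ LinearMap.proj j ∘ₗ LinearMap.snd K _ _) ∘ₗ P i
    have la : ∀ i v, l i v = ((P i v).2 j).2 := fun _ _ => rfl
    let δ : Module.Dual K (U j) [⋀^Fin (finrank K (U j))]→ₗ[K] K :=
      (Matrix.detRowAlternating (R := K) (n := Fin (finrank K (U j)))).compLinearMap (cD K U j)
    have hv : ∀ w : Fin (finrank K (U j)) → MSp K W U, vol K W U j true w =
      δ (fun i => ((w i).2 j).2) := fun _ => rfl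
    have h := alt_weil δ l
    refine Submodule.span_mono ?_ h
    rintro B ⟨T, rfl⟩
    have heq : ∀ (y : g) v, (∑ a ∈ T, l a) (ρ y v) = ⁅y, (∑ a ∈ T, l a) v⁆ := by
      intro y v
      rw [LinearMap.sum_apply, LinearMap.sum_apply, lie_sum]
      refine Finset.sum_congr rfl fun a _ => ?_
      rw [la, la, hP]
      rfl
    refine ⟨δ.compLinearMap (∑ a ∈ T, l a),
      Or.inr ⟨rfl, Subspace.dual_finrank_eq, ∑ a ∈ T, l a, heq, δ, rfl⟩, ?_, rfl⟩
    intro y u
    have hact := vol_act (W := W) (fun _ => 0) (fun j => LieModule.toEnd K g (U j) y) j true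
      (fun i => inD j ((∑ a ∈ T, l a) (u i)))
    rw [hv] at hact
    have e1 : (fun i => ((inD (K := K) (W := W) j ((∑ a ∈ T, l a) (u i))).2 j).2) =
      fun i => (∑ a ∈ T, l a) (u i) := by
      funext i; rw [inD_self']
    rw [e1] at hact
    have e2 : (δ.compLinearMap (∑ a ∈ T, l a)) u = δ (fun i => (∑ a ∈ T, l a) (u i)) := rfl
    rw [e2, ← hact]
    unfold der
    refine Finset.sum_congr rfl fun i _ => ?_
    rw [hv]
    show δ (fun a => (∑ a ∈ T, l a) (Function.update u i (ρ y (u i)) a)) = _
    congr 1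
    funext a
    by_cases h : a = i
    · subst h
      rw [Function.update_self, Function.update_self, heq, Yx_snd2, inD_self']
      refine LinearMap.ext fun w => ?_
      show -((∑ a ∈ T, l a) (u a)) ⁅y, w⁆ = -((∑ a ∈ T, l a) (u a)) ⁅y, w⁆
      rfl
    · rw [Function.update_of_ne h, Function.update_of_ne h, inD_self']

end vol

end Pool.Agent.T4W
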