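import Mathlib

/-! Antisymmetrised products of functions of blocks of arguments. -/

set_option autoImplicit false
set_option linter.unusedSectionVars false

namespace Pool.Agent.T4W

open Finset Equiv

section wg

variable {K : Type*} [Field K] {M : Type*}
variable {S : Type*} [Fintype S] [DecidableEq S] {m : ℕ} {n : S → ℕ}

/-- The antisymmetrised product of functions of blocks of arguments. -/
def Wg (e : (Σ s, Fin (n s)) ≃ Fin m) (D : ∀ s, (Fin (n s) → M) → K) (v : Fin m → M) : K :=
  ∑ σ : Perm (Fin m), ((Perm.sign σ : ℤ) : K) * ∏ s, D s (fun i => v (σ (e ⟨s, i⟩)))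

theorem Wg_swap (e : (Σ s, Fin (n s)) ≃ Fin m) (D : ∀ s, (Fin (n s) → M) → K) (s₀ : S)
    {a b : Fin (n s₀)} (hab : a ≠ b) (v : Fin m → M) :
    Wg e (Function.update D s₀ (fun u => D s₀ (fun i => u (swap a b i)))) v = - Wg e D v := by
  unfold Wg
  rw [← Equiv.sum_comp (Equiv.mulRight (swap (e ⟨s₀, a⟩) (e ⟨s₀, b⟩))), ← Finset.sum_neg_distrib]
  refine Finset.sum_congr rfl fun σ _ => ?_
  have hne : e ⟨s₀, a⟩ ≠ e ⟨s₀, b⟩ := fun h => by
    have := e.injective h
    rw [Sigma.mk.injEq] at this
    exact hab (eq_of_heq this.2)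
  have h1 : Perm.sign (σ * swap (e ⟨s₀, a⟩) (e ⟨s₀, b⟩)) = - Perm.sign σ := by
    rw [Perm.sign_mul, Perm.sign_swap hne]; simp
  rw [Equiv.coe_mulRight, h1]
  have h2 : ∏ s, (Function.update D s₀ (fun u => D s₀ (fun i => u (swap a b i)))) s
      (fun i => v ((σ * swap (e ⟨s₀, a⟩) (e ⟨s₀, b⟩)) (e ⟨s, i⟩)))
      = ∏ s, D s (fun i => v (σ (e ⟨s, i⟩))) := by
    refine Finset.prod_congr rfl fun s _ => ?_
    by_cases hs : s = s₀
    · subst hs
      rw [Function.update_self]
      congr 1
      funext i
      show v ((σ * swap (e ⟨s, a⟩) (e ⟨s, b⟩)) (e ⟨s, swap a b i⟩)) = v (σ (e ⟨s, i⟩))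
      rw [Perm.mul_apply]
      congr 2
      by_cases hia : i = a
      · subst hia
        rw [swap_apply_left, swap_apply_right]
      · by_cases hib : i = b
        · subst hib
          rw [swap_apply_right, swap_apply_left]
        · rw [swap_apply_of_ne_of_ne hia hib, swap_apply_of_ne_of_ne]
          · intro h
            have := e.injective h
            rw [Sigma.mk.injEq] at this
            exact hia (eq_of_heq this.2)
          · intro h
            have := e.injective h
            rw [Sigma.mk.injEq] at this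
            exact hib (eq_of_heq this.2)
    · rw [Function.update_of_ne hs]
      congr 1
      funext i
      rw [Perm.mul_apply, swap_apply_of_ne_of_ne]
      · intro h
        have := e.injective h
        rw [Sigma.mk.injEq] at this
        exact hs this.1
      · intro h
        have := e.injective h
        rw [Sigma.mk.injEq] at this
        exact hs this.1
  rw [h2]
  push_cast
  ring

theorem Wg_perm (e : (Σ s, Fin (n s)) ≃ Fin m) (s₀ : S) (π : Perm (Fin (n s₀)))
    (D : ∀ s, (Fin (n s) → M) → K) (v : Fin m → M) :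
    Wg e (Function.update D s₀ (fun u => D s₀ (fun i => u (π i)))) v
      = ((Perm.sign π : ℤ) : K) * Wg e D v := by
  induction π using Equiv.Perm.swap_induction_on generalizing D with
  | one =>
    have h : (fun u : Fin (n s₀) → M => D s₀ (fun i => u ((1 : Perm (Fin (n s₀))) i))) = D s₀ := rfl
    rw [h, Function.update_eq_self, map_one]
    simp
  | swap_mul f x y hxy ih =>
    have h := Wg_swap e (Function.update D s₀ (fun u => D s₀ (fun i => u (f i)))) s₀ hxy v
    rw [Function.update_idem, Function.update_self, ih] at h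
    have h2 : (fun u : Fin (n s₀) → M => D s₀ (fun i => u ((swap x y * f) i))) =
      fun u : Fin (n s₀) → M => D s₀ (fun i => u (swap x y (f i))) := rfl
    rw [h2]
    have h3 : (fun u : Fin (n s₀) → M => D s₀ (fun i => u (swap x y (f i)))) =
      (fun u : Fin (n s₀) → M => (fun u' : Fin (n s₀) → M => D s₀ (fun i => u' (f i)))
        (fun i => u (swap x y i))) := rfl
    rw [h3, h, Perm.sign_mul, Perm.sign_swap hxy]
    push_cast
    ring

theorem Wg_add (e : (Σ s, Fin (n s)) ≃ Fin m) (D : ∀ s, (Fin (n s) → M) → K) (s₀ : S)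
    (F G : (Fin (n s₀) → M) → K) :
    Wg e (Function.update D s₀ (F + G)) = Wg e (Function.update D s₀ F) +
      Wg e (Function.update D s₀ G) := by
  funext v
  rw [Pi.add_apply]
  unfold Wg
  rw [← Finset.sum_add_distrib]
  refine Finset.sum_congr rfl fun σ _ => ?_
  have h : ∀ Z : (Fin (n s₀) → M) → K, ∏ s, (Function.update D s₀ Z) s
      (fun i => v (σ (e ⟨s, i⟩))) = Z (fun i => v (σ (e ⟨s₀, i⟩))) *
        ∏ s ∈ Finset.univ.erase s₀, D s (fun i => v (σ (e ⟨s, i⟩))) := by
    intro Z
    rw [← Finset.mul_prod_erase _ _ (Finset.mem_univ s₀), Function.update_self]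
    congr 1
    refine Finset.prod_congr rfl fun r hr => ?_
    rw [Function.update_of_ne (Finset.ne_of_mem_erase hr)]
  rw [h, h, h, Pi.add_apply]
  ring

theorem Wg_smul (e : (Σ s, Fin (n s)) ≃ Fin m) (D : ∀ s, (Fin (n s) → M) → K) (s₀ : S)
    (c : K) (F : (Fin (n s₀) → M) → K) :
    Wg e (Function.update D s₀ (c • F)) = c • Wg e (Function.update D s₀ F) := by
  funext v
  rw [Pi.smul_apply]
  unfold Wg
  rw [Finset.smul_sum]
  refine Finset.sum_congr rfl fun σ _ => ?_
  have h : ∀ Z : (Fin (n s₀) → M) → K, ∏ s, (Function.update D s₀ Z) s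
      (fun i => v (σ (e ⟨s, i⟩))) = Z (fun i => v (σ (e ⟨s₀, i⟩))) *
        ∏ s ∈ Finset.univ.erase s₀, D s (fun i => v (σ (e ⟨s, i⟩))) := by
    intro Z
    rw [← Finset.mul_prod_erase _ _ (Finset.mem_univ s₀), Function.update_self]
    congr 1
    refine Finset.prod_congr rfl fun r hr => ?_
    rw [Function.update_of_ne (Finset.ne_of_mem_erase hr)]
  rw [h, h, Pi.smul_apply, smul_eq_mul, smul_eq_mul]
  ring

/-- Wg is multilinear in the blocks. -/
def WgM (e : (Σ s, Fin (n s)) ≃ Fin m) :
    MultilinearMap K (fun s => (Fin (n s) → M) → K) ((Fin m → M) → K) where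
  toFun D := Wg e D
  map_update_add' := by
    intro inst D s₀ F G
    exact @Wg_add K _ M S _ inst m n e D s₀ F G
  map_update_smul' := by
    intro inst D s₀ c F
    exact @Wg_smul K _ M S _ inst m n e D s₀ c F

theorem WgM_apply (e : (Σ s, Fin (n s)) ≃ Fin m) (D : ∀ s, (Fin (n s) → M) → K) :
    WgM e D = Wg e D := rfl

end wg

section alt

variable {K : Type*} [Field K] [CharZero K] {M : Type*}
variable {S : Type*} [Fintype S] [DecidableEq S] {m : ℕ} {n : S → ℕ}

/-- The alternating part of a function. -/
noncomputable def alt {k : ℕ} (F : (Fin k → M) → K) : (Fin k → M) → K :=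
  (k.factorial : K)⁻¹ • ∑ π : Perm (Fin k), ((Perm.sign π : ℤ) : K) • fun u => F (fun i => u (π i))

theorem Wg_alt_one (e : (Σ s, Fin (n s)) ≃ Fin m) (D : ∀ s, (Fin (n s) → M) → K) (s₀ : S) :
    Wg e (Function.update D s₀ (alt (D s₀))) = Wg e D := by
  unfold alt
  rw [Wg_smul, ← WgM_apply, MultilinearMap.map_update_sum]
  have h : ∀ π : Perm (Fin (n s₀)), WgM e (Function.update D s₀ (((Perm.sign π : ℤ) : K) •
      fun u => D s₀ (fun i => u (π i)))) = Wg e D := by
    intro π
    rw [WgM_apply, Wg_smul]
    funext v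
    rw [Pi.smul_apply, Wg_perm, smul_eq_mul, ← mul_assoc, ← Int.cast_mul]
    have h5 : ((Perm.sign π : ℤ) * (Perm.sign π : ℤ)) = 1 := by
      rw [← Units.val_mul, Int.units_mul_self, Units.val_one]
    rw [h5, Int.cast_one, one_mul]
  rw [Finset.sum_congr rfl fun π _ => h π, Finset.sum_const, Finset.card_univ, Fintype.card_perm,
    Fintype.card_fin, ← Nat.cast_smul_eq_nsmul K, smul_smul, inv_mul_cancel₀, one_smul]
  exact_mod_cast (n s₀).factorial_ne_zero

theorem Wg_alt (e : (Σ s, Fin (n s)) ≃ Fin m) (D : ∀ s, (Fin (n s) → M) → K) :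
    Wg e (fun s => alt (D s)) = Wg e D := by
  have key : ∀ T : Finset S, Wg e (fun s => if s ∈ T then alt (D s) else D s) = Wg e D := by
    intro T
    induction T using Finset.induction_on with
    | empty => simp
    | insert s₀ T hr ih =>
      rw [← ih, ← Wg_alt_one e (fun s => if s ∈ T then alt (D s) else D s) s₀]
      congr 1
      funext s
      by_cases h : s = s₀
      · subst h
        rw [Function.update_self, if_pos (Finset.mem_insert_self _ _), if_neg hr]
      · rw [Function.update_of_ne h]
        simp [h]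
  rw [← key Finset.univ]
  simp

end alt

section span

variable {K : Type*} [Field K]
variable {S : Type*} [Fintype S] [DecidableEq S]

/-- A multilinear map with arguments in spans. -/
theorem mem_span_multi {E : S → Type*} [∀ s, AddCommGroup (E s)] [∀ s, Module K (E s)]
    {Q : Type*} [AddCommGroup Q] [Module K Q] (φ : MultilinearMap K E Q) (A : ∀ s, Set (E s))
    (x : ∀ s, E s) (hx : ∀ s, x s ∈ Submodule.span K (A s)) :
    φ x ∈ Submodule.span K {q | ∃ y : ∀ s, E s, (∀ s, y s ∈ A s) ∧ q = φ y} := by
  have key : ∀ (T : Finset S) (x : ∀ s, E s), (∀ s ∈ T, x s ∈ Submodule.span K (A s)) →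
      (∀ s, s ∉ T → x s ∈ A s) →
      φ x ∈ Submodule.span K {q | ∃ y : ∀ s, E s, (∀ s, y s ∈ A s) ∧ q = φ y} := by
    intro T
    induction T using Finset.induction_on with
    | empty =>
      intro x _ hx
      exact Submodule.subset_span ⟨x, fun s => hx s (Finset.notMem_empty s), rfl⟩
    | insert s₀ T hs ih =>
      intro x h1 h2
      have h3 := h1 s₀ (Finset.mem_insert_self _ _)
      have h4 : ∀ a ∈ Submodule.span K (A s₀), φ (Function.update x s₀ a) ∈
          Submodule.span K {q | ∃ y : ∀ s, E s, (∀ s, y s ∈ A s) ∧ q = φ y} := by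
        intro a ha
        induction ha using Submodule.span_induction with
        | mem a ha =>
          refine ih _ ?_ ?_
          · intro s hsT
            have hne : s ≠ s₀ := fun h => hs (h ▸ hsT)
            rw [Function.update_of_ne hne]
            exact h1 s (Finset.mem_insert_of_mem hsT)
          · intro s hsT
            by_cases hss : s = s₀
            · subst hss
              rw [Function.update_self]
              exact ha
            · rw [Function.update_of_ne hss]
              refine h2 s ?_
              rw [Finset.mem_insert]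
              push Not
              exact ⟨hss, hsT⟩
        | zero =>
          rw [MultilinearMap.map_update_zero]
          exact Submodule.zero_mem _
        | add a b _ _ iha ihb =>
          rw [MultilinearMap.map_update_add]
          exact Submodule.add_mem _ iha ihb
        | smul c a _ iha =>
          rw [MultilinearMap.map_update_smul]
          exact Submodule.smul_mem _ _ iha
      have h5 := h4 _ h3
      rwa [Function.update_eq_self] at h5
  exact key Finset.univ x (fun s _ => hx s) (fun s hs => absurd (Finset.mem_univ s) hs)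

end span

section polar

variable {K : Type*} [Field K] {M N : Type*} [AddCommGroup M] [Module K M] [AddCommGroup N]
  [Module K N]

/-- Inclusion-exclusion: the sum over all bijections is a signed sum over subsets. -/
theorem polar_sum {Q : Type*} [AddCommGroup Q] {k : ℕ} (T : (Fin k → Fin k) → Q) :
    ∑ S : Finset (Fin k), (-1 : ℤ) ^ Sᶜ.card • ∑ f : Fin k → Fin k,
      (if ∀ i, f i ∈ S then T f else 0) = ∑ π : Perm (Fin k), T π := by
  have h1 : ∑ S : Finset (Fin k), (-1 : ℤ) ^ Sᶜ.card • ∑ f : Fin k → Fin k,
      (if ∀ i, f i ∈ S then T f else 0) = ∑ f : Fin k → Fin k,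
        (∑ S : Finset (Fin k), if ∀ i, f i ∈ S then (-1 : ℤ) ^ Sᶜ.card else 0) • T f := by
    simp only [Finset.smul_sum, Finset.sum_smul]
    rw [Finset.sum_comm]
    refine Finset.sum_congr rfl fun f _ => Finset.sum_congr rfl fun S _ => ?_
    split_ifs
    · rfl
    · rw [smul_zero, zero_smul]
  rw [h1]
  have h2 : ∀ f : Fin k → Fin k,
      (∑ S : Finset (Fin k), if ∀ i, f i ∈ S then (-1 : ℤ) ^ Sᶜ.card else 0) =
        if Function.Surjective f then 1 else 0 := by
    intro f
    have h3 : (∑ S : Finset (Fin k), if ∀ i, f i ∈ S then (-1 : ℤ) ^ Sᶜ.card else 0) =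
        ∑ R ∈ (Finset.univ.image f)ᶜ.powerset, (-1 : ℤ) ^ R.card := by
      rw [← Finset.sum_filter]
      refine Finset.sum_nbij' (fun S => Sᶜ) (fun R => Rᶜ) ?_ ?_ ?_ ?_ ?_
      · intro S hS
        rw [Finset.mem_filter] at hS
        rw [Finset.mem_powerset, Finset.compl_subset_compl]
        intro x hx
        obtain ⟨i, -, rfl⟩ := Finset.mem_image.mp hx
        exact hS.2 i
      · intro R hR
        rw [Finset.mem_powerset] at hR
        rw [Finset.mem_filter]
        refine ⟨Finset.mem_univ _, fun i => ?_⟩
        rw [Finset.mem_compl]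
        intro hi
        have := hR hi
        rw [Finset.mem_compl] at this
        exact this (Finset.mem_image_of_mem f (Finset.mem_univ i))
      · intro S _; exact compl_compl S
      · intro S _; exact compl_compl S
      · intro S _; rfl
    rw [h3, Finset.sum_powerset_neg_one_pow_card]
    have h4 : ((Finset.univ.image f)ᶜ = ∅) ↔ Function.Surjective f := by
      rw [Finset.compl_eq_empty_iff, Finset.eq_univ_iff_forall]
      simp only [Finset.mem_image, Finset.mem_univ, true_and]
      rfl
    by_cases hs : Function.Surjective f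
    · rw [if_pos (h4.mpr hs), if_pos hs]
    · rw [if_neg (fun h => hs (h4.mp h)), if_neg hs]
  simp only [h2, ite_smul, one_smul, zero_smul]
  rw [← Finset.sum_filter]
  refine Finset.sum_bij' (fun f hf => Equiv.ofBijective f
    (Finite.surjective_iff_bijective.mp (Finset.mem_filter.mp hf).2)) (fun π _ => ⇑π) ?_ ?_ ?_ ?_ ?_
  · intro f _; exact Finset.mem_univ _
  · intro π _
    rw [Finset.mem_filter]
    exact ⟨Finset.mem_univ _, π.surjective⟩
  · intro f _; rfl
  · intro π _
    ext i
    rfl
  · intro f _; rfl

end polar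

end Pool.Agent.T4W
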